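import Pool.Agent.H525R4.Mono.KSumLower
import Pool.Agent.H525R4.Mono.KSumUpper

/-!
# (k+1)-SUM-Indexing: about `n ^ k` space for monotone data structures with few probes

`k` arrays of at most `n` integers from `0, …, N` are preprocessed, where `n ^ k ≤ N`.  A monotone
data structure (`KSumDS`) has `s` cells; every cell contains an arbitrary nondecreasing real
function of the arrays (unlimited preprocessing, unlimited word length).  In addition there are
`k r` free cells, which count as probes but not as space: they contain arbitrary nondecreasing
functions of `k - 1` of the arrays (for instance one array, or all the sums of `k - 1` elements).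
A query is an integer `z`; the structure reads cells adaptively and decides whether `z` is a sum of
one element of every array, by a condition which is nondecreasing in the contents of the memory.
The data structure may be random: every answer is correct with probability at least `1 / 2 + δ`,
and if the answer is no then the expected number of cells read is at most `t`.

Then `s ≥ δ * (δ * n / (40 * k ^ 2 * t * log₂ ((n + r) / δ))) ^ k`.  In particular constant query
time needs space `Ω~(n ^ k)`, as the problem asks, and this is the truth up to logarithms: for
`N = n ^ k` the table of all sums has `k * n ^ k + 1` cells, is monotone, and needs one probe.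

Proof.  The elements of the array `j` are pairs `(i, e)`, `i < h`, `e < u`, written as integers with
`2 k` digits: the `i` is a digit of its own for every array, and one digit compares the `e` of the
first array with the `e` of the array `j`.  A query `q` asks for `(q j, e)` in the arrays `j` with the
same `e`.  The true inputs of a query and an `e`: the array `j` contains only `(q j, e)`.  The false
inputs are random: the arrays contain everything, but for every `e` the pair `(q j, e)` is missing
for one random `j`.  If the answer is positive on the true input of `e` and negative on the false
input `y`, then one of the cells read on `y` is larger on the true input than on `y`; it *serves*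
`e`.  Fix a cell, and let its owner be the query for which the `(k L)`-th largest of the values of
the cell on the true inputs is the largest.  For any other query, each of the `k L` elements `e'`
with the largest values for the owner is good with probability at least `1 / k`: the true input of
the owner for `e'` lies below the false input; then the cell serves fewer than `k L` elements.  A
free cell has no need of an owner, since it has the same values on the true inputs of another query.
So, if `u` is a large constant times `k t L / δ`, the `h ^ k` queries must own at least `δ` cells on
the average, and every cell has only one owner.
-/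

namespace Pool.Agent.Results.MP_5e38ef_lc.AdaptiveMonotone

open Pool.Agent.H525R4.Mono

/-- Lower bound: every randomised monotone data structure (with `s` cells, and `k r` free cells
which ignore one of the arrays) which solves `(k+1)`-SUM-Indexing with advantage `δ` and `t` probes
for `k` arrays of `n` integers from `0, …, N`, `n ^ k ≤ N`, has at least
`δ * (δ * n / (40 * k ^ 2 * t * log₂ ((n + r) / δ))) ^ k` cells.  Upper bound: for `N = n ^ k` there
is a deterministic one without errors, with `k * n ^ k + 1` cells and one probe. -/
theorem result (k n : ℕ) (hk : 2 ≤ k) :
    (∀ N s r : ℕ, n ^ k ≤ N → ∀ δ t : ℝ, 0 < δ → δ ≤ 1 / 2 → 1 ≤ t →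
      40 * k ^ 2 * t * Real.logb 2 ((n + r) / δ) ≤ δ * n →
      ∀ (Ω : Type) [Fintype Ω] (p : Ω → ℝ) (D : Ω → KSumDS k s r), KSumSolves n N p D δ t →
        δ * (δ * n / (40 * k ^ 2 * t * Real.logb 2 ((n + r) / δ))) ^ k ≤ s) ∧
    ∃ D : KSumDS k (k * n ^ k + 1) 0,
      KSumSolves n (n ^ k) (fun _ : Unit => (1 : ℝ)) (fun _ => D) (1 / 2) 1 :=
  ⟨fun _ _ _ hN _ _ hδ hδ2 ht hnt _ _ p D hD => ksum_lower hk hδ hδ2 ht hnt hN p D hD,
    ⟨tableDS k (n ^ k), table_solves k n (n ^ k)⟩⟩

end Pool.Agent.Results.MP_5e38ef_lc.AdaptiveMonotone
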